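import Pool.Agent.REV.StmtsV3

set_option autoImplicit false

/-!
# Squad REV, row VAL3: the one variable theorem for `n = 3` (copy of Helper32_REV/VAL)
-/

namespace Pool.Agent.REV.H67

open Set MeasureTheory Filter Pool.Agent.REV
open scoped Topology

theorem c33_pos {C : ℝ} (hC : 0 < C) : 0 < c3 3 C := by
  unfold c3
  have h1 : 0 < ((3 : ℕ) : ℝ) - 1 := by norm_num
  have h2 : 0 < ((3 : ℕ) : ℝ) - 2 := by norm_num
  positivity

theorem val3 (vm3 : Vm3Stmt) (vn3 : Vn3Stmt) (lmm : LmmStmt) (va3 : Va3Stmt) (vx3 : Vx3Stmt)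
    (bs3 : Bs3Stmt) (vf3 : Vf3Stmt) (ll3 : Ll3Stmt) (ftl : FtlStmt) (vg3 : Vg3Stmt) :
    Val3Stmt := by
  intro C κ0 κ1 R η F s hC hκ0 hκ1 hR hη0 hPrf hs hst hE hRA hη
  have hc3 := c33_pos hC
  set R' : ℝ := R / κ1 with hR'
  have hR'0 : 0 < R' := div_pos hR hκ1
  let E : ℝ → ℝ := fun b => (η b - η 0) / κ1
  -- the constants
  have hH : ∀ j ≤ 2, Tendsto (fun k => κ0 * H0 3 (F k j)) atTop (𝓝 (η 0)) := by
    intro j hj
    have := hE j hj 0 le_rfl
    simpa using this
  have hInt : ∀ j ≤ 2, ∀ b : ℝ, 0 ≤ b →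
      Tendsto (fun k => ∫ t in (0 : ℝ)..b, yb 3 (F k j) t) atTop (𝓝 (E b)) := by
    intro j hj b hb
    have h1 := ((hE j hj b hb).sub (hH j hj)).div_const κ1
    have h2 : (fun k => (κ0 * H0 3 (F k j) + κ1 * (∫ t in (0 : ℝ)..b, yb 3 (F k j) t) -
        κ0 * H0 3 (F k j)) / κ1) = fun k => ∫ t in (0 : ℝ)..b, yb 3 (F k j) t := by
      funext k
      field_simp
      ring
    rw [h2] at h1
    exact h1
  have hLmt : ∀ j ≤ 2, Lmt E (fun k => yb 3 (F k j)) := by
    intro j hj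
    refine ⟨fun k => (vm3 (F k j) (hPrf k j)).1, fun k b hb => ?_, hInt j hj⟩
    exact ((vm3 (F k j) (hPrf k j)).2.2.2.1 b hb).1
  obtain ⟨y, D, hD, hmono, hy0, hEy, hylim⟩ := lmm E (fun k => yb 3 (F k 0)) (hLmt 0 (by omega))
  have hr : ∀ j ≤ 2, Tendsto (fun k => RA 3 (F k j) 1) atTop (𝓝 R') := by
    intro j hj
    have h1 := (hRA j hj).div_const κ1
    have h2 : (fun k => κ1 * RA 3 (F k j) 1 / κ1) = fun k => RA 3 (F k j) 1 := by
      funext k
      field_simp
    rw [h2] at h1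
    exact h1
  let σ : ℝ := η 0 / (κ0 * c3 3 C * R' ^ 2)
  have hden : 0 < κ0 * c3 3 C * R' ^ 2 := by positivity
  have hσ : 0 < σ := div_pos hη0 hden
  have hσeq : κ0 * (σ * c3 3 C * R' ^ 2) = η 0 := by
    have : σ * (κ0 * c3 3 C * R' ^ 2) = η 0 := div_mul_cancel₀ _ hden.ne'
    linarith
  have hslim : ∀ j ≤ 1, Tendsto (fun k => s k j) atTop (𝓝 σ) := by
    intro j hj
    have h1 : Tendsto (fun k => κ0 * H0 3 (F k (j + 1)) /
        (κ0 * c3 3 C * RA 3 (F k j) 1 ^ 2)) atTop (𝓝 σ) :=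
      (hH (j + 1) (by omega)).div (((hr j (by omega)).pow 2).const_mul (κ0 * c3 3 C))
        hden.ne'
    refine h1.congr' ?_
    have h2 : ∀ᶠ k in atTop, 0 < RA 3 (F k j) 1 :=
      (hr j (by omega)).eventually (lt_mem_nhds hR'0)
    filter_upwards [h2] with k hk
    have h3 := (vn3 C (s k j) (F k j) (F k (j + 1)) hC.le (hs k j).le (hPrf k j)
      (hPrf k (j + 1)) (hst k j hj)).2
    rw [h3]
    have h4 : 0 < RA 3 (F k j) 1 ^ 2 := by positivity
    field_simp
  -- the limit at infinity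
  have hEb : Tendsto (fun b => E b / b) atTop (𝓝 R') := by
    have h1 : Tendsto (fun b : ℝ => η 0 / b) atTop (𝓝 0) := tendsto_const_nhds.div_atTop tendsto_id
    have h2 := (hη.sub h1).div_const κ1
    rw [sub_zero] at h2
    refine h2.congr fun b => ?_
    show (η b / b - η 0 / b) / κ1 = (η b - η 0) / κ1 / b
    ring
  have hlow : ∀ b : ℝ, 0 < b → E b / b ≤ y b := by
    intro b hb
    rw [div_le_iff₀ hb, (hEy b hb.le).2]
    have h1 : (∫ t in (0 : ℝ)..b, y t) ≤ ∫ _ in (0 : ℝ)..b, y b := by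
      refine intervalIntegral.integral_mono_on_of_le_Ioo hb.le (hEy b hb.le).1
        intervalIntegrable_const ?_
      intro t ht
      exact hmono ht.1 hb ht.2.le
    rw [intervalIntegral.integral_const, smul_eq_mul, sub_zero] at h1
    linarith
  have hup : ∀ b : ℝ, 0 < b → y b ≤ (E (2 * b) - E b) / b := by
    intro b hb
    rw [le_div_iff₀ hb, (hEy b hb.le).2, (hEy (2 * b) (by linarith)).2]
    have hi2 := (hEy (2 * b) (by linarith)).1
    have hi1 := (hEy b hb.le).1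
    rw [intervalIntegral.integral_interval_sub_left hi2 hi1]
    have h1 : (∫ _ in b..(2 * b), y b) ≤ ∫ t in b..(2 * b), y t := by
      refine intervalIntegral.integral_mono_on (by linarith) intervalIntegrable_const
        (hi1.symm.trans hi2) ?_
      intro t ht
      exact hmono hb (lt_of_lt_of_le hb ht.1) ht.1
    rw [intervalIntegral.integral_const, smul_eq_mul] at h1
    linarith
  have htop : Tendsto y atTop (𝓝 R') := by
    have h1 : Tendsto (fun b : ℝ => (E (2 * b) - E b) / b) atTop (𝓝 R') := by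
      have h2 : Tendsto (fun b : ℝ => E (2 * b) / (2 * b)) atTop (𝓝 R') :=
        hEb.comp (tendsto_id.const_mul_atTop (by norm_num : (0 : ℝ) < 2))
      have h3 := (h2.const_mul 2).sub hEb
      have h4 : 2 * R' - R' = R' := by ring
      rw [h4] at h3
      refine h3.congr' ?_
      filter_upwards [eventually_gt_atTop (0 : ℝ)] with b hb
      field_simp
    refine tendsto_of_tendsto_of_tendsto_of_le_of_le' hEb h1 ?_ ?_
    · filter_upwards [eventually_gt_atTop (0 : ℝ)] with b hb using hlow b hb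
    · filter_upwards [eventually_gt_atTop (0 : ℝ)] with b hb using hup b hb
  have hyR : ∀ b : ℝ, 0 < b → y b ≤ R' := by
    intro b hb
    refine ge_of_tendsto htop ?_
    filter_upwards [eventually_ge_atTop b] with b' hb'
    exact hmono hb (lt_of_lt_of_le hb hb') hb'
  have hLD : LD 3 C σ R' F s y D := by
    refine ⟨hPrf, hs, hst, hslim, hr, hD, hmono, hy0, ?_, htop⟩
    intro j hj b hb hbD
    exact hylim _ (hLmt j hj) b hb hbD
  have hηE : ∀ b : ℝ, 0 ≤ b → η b = η 0 + κ1 * ∫ t in (0 : ℝ)..b, y t := by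
    intro b hb
    rw [← (hEy b hb).2]
    show η b = η 0 + κ1 * ((η b - η 0) / κ1)
    field_simp
    ring
  rcases va3 C σ R' F s y D hC hσ hR'0 hLD with hcase | hcase
  · left
    intro b hb
    rw [hηE b hb]
    have h1 : (∫ t in (0 : ℝ)..b, y t) = ∫ _ in (0 : ℝ)..b, R' := by
      refine intervalIntegral.integral_congr_ae ?_
      refine Eventually.of_forall fun t ht => ?_
      rw [uIoc_of_le hb] at ht
      exact hcase t ht.1
    rw [h1, intervalIntegral.integral_const, smul_eq_mul, sub_zero, hR']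
    field_simp
  · right
    obtain ⟨D0, hD0, hD0'⟩ := vx3 C σ R' F s y D hC hσ hR'0 hLD
    obtain ⟨K, hK, hKy⟩ := bs3 R' D0 y hD0 hmono (fun b hb => ⟨hy0 b hb, hyR b hb⟩) hcase hD0'
    obtain ⟨heq, K1, hK1, hK1y⟩ := vf3 C σ R' K F s y D hC hσ hR'0 hLD hK hKy
    obtain ⟨K', hK', hK'y⟩ := ll3 (σ * c3 3 C) R' K K1 y D (by positivity) hR'0.le hK hD hmono
      (fun b hb => ⟨hy0 b hb, hyR b hb, hKy b hb⟩) hK1 hK1y (fun b hb hbD => (heq b hb hbD).2)
    obtain ⟨hcont, d, hdm, hdb, hdi⟩ := ftl K' y hK' hmono hK'y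
    obtain ⟨f, hf, hfy, hfH⟩ := vg3 C σ R' K K' y d D hC hσ hR'0 hK hK' hD hmono hcont
      (fun b hb => ⟨hy0 b hb, hKy b hb, hyR b hb⟩) htop hdm hdb hdi
      heq
    refine ⟨f, hf, fun b hb => ?_⟩
    rw [hηE b hb, hfH, hσeq]
    congr 2
    refine intervalIntegral.integral_congr_ae ?_
    refine Eventually.of_forall fun t ht => ?_
    rw [uIoc_of_le hb] at ht
    exact (hfy t ht.1).symm

end Pool.Agent.REV.H67
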