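import Pool.Agent.REV.StmtsG4
import Pool.Agent.Helper6_REV.DHZ

/-!
# REV, row DHZ3: the directional derivative of `hz (zon e φ)`, dimension at least three
-/

set_option autoImplicit false

open MeasureTheory Module Set Filter
open scoped RealInnerProductSpace Pointwise Topology ENNReal

namespace Pool.Agent.REV.H67

open Pool.Agent.BPH Pool.Agent.Helper55_PB Pool.Agent.Helper28_PB
open Pool.Agent.REV.H6 (abs_sign_le meas_sign clamp_eq clamp_abs nrm_le)

theorem dhz3 (sle : SleStmt) (lwv : Lwv3Stmt) (dha : Dha3Stmt) : Dhz3Stmt := by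
  intro E _ _ _ _ _ hn
  obtain ⟨κ1, hκ1, h1⟩ := sle E (by omega)
  obtain ⟨κ2, hκ2, h2⟩ := lwv E hn
  have hn' : (0 : ℝ) < (finrank ℝ E : ℝ) - 2 := by
    have : (3 : ℝ) ≤ (finrank ℝ E : ℝ) := by exact_mod_cast hn
    linarith
  refine ⟨κ1 * κ2 * (4 / ((finrank ℝ E : ℝ) - 2)), by positivity, ?_⟩
  intro e m he hm hem t c htc hc φ hφ
  haveI : Nontrivial E := Module.nontrivial_of_finrank_pos (R := ℝ) (by omega)
  haveI : IsProbabilityMeasure (sph E) := sph_facts.prob
  have hme : ⟪m, e⟫ = (0 : ℝ) := by rw [real_inner_comm]; exact hem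
  have hee : ⟪e, e⟫ = (1 : ℝ) := by rw [real_inner_self_eq_norm_sq, he]; norm_num
  obtain ⟨hφm, C, hC⟩ := hφ
  set F : E → ℝ := fun x => if ‖x‖ ≤ 1 then
    Real.sign ⟪t • e + c • m, x⟫ * ⟪m, x⟫ * zon e φ x else 0 with hFdef
  have hinn : ∀ v : E, Measurable (fun x : E => ⟪v, x⟫) := fun v =>
    (continuous_const.inner continuous_id).measurable
  have hFT : Tst F := by
    refine ⟨?_, C, fun x => ?_⟩
    · refine Measurable.ite (measurableSet_le measurable_norm measurable_const) ?_
        measurable_const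
      refine ((meas_sign.comp (hinn _)).mul (hinn _)).mul ?_
      unfold zon
      exact hφm.comp (((hinn e).abs).min measurable_const)
    · have hC0 : 0 ≤ C := (abs_nonneg _).trans (hC 0)
      rw [hFdef]
      simp only
      split_ifs with hx
      · rw [abs_mul, abs_mul]
        have a1 : |⟪m, x⟫| ≤ (1 : ℝ) := by
          refine (abs_real_inner_le_norm m x).trans ?_
          rw [hm, one_mul]
          exact hx
        have a2 := abs_sign_le ⟪t • e + c • m, x⟫
        have a3 : |zon e φ x| ≤ C := hC _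
        calc |Real.sign ⟪t • e + c • m, x⟫| * |⟪m, x⟫| * |zon e φ x|
            ≤ 1 * 1 * C := by gcongr
          _ = C := by ring
      · simpa using hC0
  have e0 : ∫ x, Real.sign ⟪t • e + c • m, x⟫ * ⟪m, x⟫ * zon e φ x ∂sph E =
      ∫ x, F x ∂sph E := by
    refine integral_congr_ae ?_
    filter_upwards [sph_facts.norm (E := E)] with x hx
    rw [hFdef]
    simp only
    rw [if_pos hx.le]
  rw [e0, h1 e he F hFT]
  have hin : ∀ a ∈ Icc (-1 : ℝ) 1,
      mS (ℝ ∙ e)ᗮ (fun θ => F (a • e + Real.sqrt (1 - a ^ 2) • θ)) =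
        κ2 * (φ (min |a| 1) * (Real.sqrt (1 - a ^ 2) *
          ∫ b in (-1 : ℝ)..1, (1 - b ^ 2) ^ (((finrank ℝ E : ℝ) - 4) / 2) *
            (Real.sign (t * a + c * Real.sqrt (1 - a ^ 2) * b) * b))) := by
    intro a ha
    have ha1 : 0 ≤ 1 - a ^ 2 := by nlinarith [ha.1, ha.2]
    set s := Real.sqrt (1 - a ^ 2) with hs
    have hs2 : s ^ 2 = 1 - a ^ 2 := Real.sq_sqrt ha1
    set ψ : ℝ → ℝ := fun b => Real.sign (t * a + c * s * b) * max (-1) (min b 1) with hψ
    have hψB : BM ψ := by
      refine ⟨?_, 1, fun b => ?_⟩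
      · refine (meas_sign.comp (by fun_prop)).mul ?_
        exact measurable_const.max (measurable_id.min measurable_const)
      · rw [hψ]
        simp only
        rw [abs_mul]
        calc |Real.sign (t * a + c * s * b)| * |max (-1) (min b 1)| ≤ 1 * 1 :=
              mul_le_mul (abs_sign_le _) (clamp_abs b) (abs_nonneg _) zero_le_one
          _ = 1 := by ring
    have hl := h2 e m he hm hem ψ hψB
    have e1 : mS (ℝ ∙ e)ᗮ (fun θ => F (a • e + s • θ)) =
        φ (min |a| 1) * s * mS (ℝ ∙ e)ᗮ (fun x => ψ ⟪m, x⟫) := by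
      unfold mS
      rw [← integral_const_mul]
      refine integral_congr_ae (Eventually.of_forall fun x => ?_)
      simp only
      set θ := nrm ((ℝ ∙ e)ᗮ.starProjection x) with hθ
      have hθ1 : ‖θ‖ ≤ 1 := nrm_le _
      have heθ : ⟪e, θ⟫ = (0 : ℝ) := by
        have : (ℝ ∙ e)ᗮ.starProjection x ∈ (ℝ ∙ e)ᗮ := Submodule.starProjection_apply_mem _ _
        have h3 := Submodule.mem_orthogonal_singleton_iff_inner_right.mp this
        rw [hθ]
        unfold nrm
        rw [inner_smul_right, h3, mul_zero]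
      have hmθ : |⟪m, θ⟫| ≤ (1 : ℝ) := by
        refine (abs_real_inner_le_norm m θ).trans ?_
        rw [hm, one_mul]
        exact hθ1
      have i1 : ⟪e, a • e + s • θ⟫ = a := by
        rw [inner_add_right, inner_smul_right, inner_smul_right, heθ, hee]
        ring
      have i2 : ⟪m, a • e + s • θ⟫ = s * ⟪m, θ⟫ := by
        rw [inner_add_right, inner_smul_right, inner_smul_right, hme]
        ring
      have i3 : ⟪t • e + c • m, a • e + s • θ⟫ = t * a + c * s * ⟪m, θ⟫ := by
        rw [inner_add_left, real_inner_smul_left, real_inner_smul_left, i1, i2]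
        ring
      have hnorm : ‖a • e + s • θ‖ ≤ 1 := by
        have h4 : ‖a • e + s • θ‖ ^ 2 ≤ 1 := by
          rw [← real_inner_self_eq_norm_sq, inner_add_left, real_inner_smul_left,
            real_inner_smul_left, i1]
          have h5 : ⟪θ, a • e + s • θ⟫ = s * ‖θ‖ ^ 2 := by
            rw [inner_add_right, inner_smul_right, inner_smul_right, real_inner_comm, heθ,
              real_inner_self_eq_norm_sq]
            ring
          rw [h5]
          have h6 : ‖θ‖ ^ 2 ≤ 1 := by
            nlinarith [norm_nonneg θ]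
          nlinarith [sq_nonneg s, mul_le_mul_of_nonneg_left h6 (sq_nonneg s)]
        nlinarith [norm_nonneg (a • e + s • θ)]
      rw [hFdef]
      simp only
      rw [if_pos hnorm, i3, i2]
      unfold zon
      rw [i1, hψ]
      simp only
      rw [clamp_eq hmθ]
      ring
    rw [e1, hl]
    have e2 : ∫ x in (-1 : ℝ)..1, (1 - x ^ 2) ^ (((finrank ℝ E : ℝ) - 4) / 2) * ψ x =
        ∫ b in (-1 : ℝ)..1, (1 - b ^ 2) ^ (((finrank ℝ E : ℝ) - 4) / 2) *
            (Real.sign (t * a + c * s * b) * b) := by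
      refine intervalIntegral.integral_congr fun b hb => ?_
      rw [uIcc_of_le (by norm_num : (-1 : ℝ) ≤ 1)] at hb
      simp only [hψ]
      rw [clamp_eq (abs_le.mpr hb)]
    rw [e2]
    ring
  have e3 : ∫ a in (-1 : ℝ)..1, (1 - a ^ 2) ^ (((finrank ℝ E : ℝ) - 3) / 2) *
      mS (ℝ ∙ e)ᗮ (fun θ => F (a • e + Real.sqrt (1 - a ^ 2) • θ)) =
      κ2 * ∫ a in (-1 : ℝ)..1, (1 - a ^ 2) ^ (((finrank ℝ E : ℝ) - 3) / 2) * (φ (min |a| 1) *
      (Real.sqrt (1 - a ^ 2) * ∫ b in (-1 : ℝ)..1, (1 - b ^ 2) ^ (((finrank ℝ E : ℝ) - 4) / 2) *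
        (Real.sign (t * a + c * Real.sqrt (1 - a ^ 2) * b) * b))) := by
    rw [← intervalIntegral.integral_const_mul]
    refine intervalIntegral.integral_congr fun a ha => ?_
    rw [uIcc_of_le (by norm_num : (-1 : ℝ) ≤ 1)] at ha
    rw [hin a ha]
    ring
  rw [e3, dha (finrank ℝ E) t c φ hn htc hc ⟨hφm, C, hC⟩]
  ring

end Pool.Agent.REV.H67
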